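import Pool.Agent.TH214.U.AS
import Pool.Agent.TH214.V.SchRes
import Pool.Agent.TH214.V.Kum

/-!
# Covers of schön subvarieties of tori over composita of surface fields
-/

set_option autoImplicit false
set_option linter.unusedVariables false
set_option linter.unusedSectionVars false

universe u

open Polynomial TensorProduct Pool.Agent.TH188.WP Pool.Agent.W558 Pool.Agent.TH188.VT
  Pool.Agent.TH188.VQ Pool.Agent.W558.WT Pool.Agent.TH214.V

namespace Pool.Agent.TH214.U

section gen

variable {p : ℕ} [Fact p.Prime] {k K : Type u} [Field k] [PerfectField k] [CharP k p] [Field K]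
  [Algebra k K] {m : ℕ} {E : Fin m → IntermediateField k K}

/-- Joint Artin-Schreier normal form on the function field of the subvariety. -/
theorem sch_gmaE (hE : AreIndependentSurfaceFields E) {d0 : ℕ}
    (htr : Algebra.trdeg k (cps E) = d0) (f : ∀ i, E i) (B : Type) [Fintype B]
    (a : B → ∀ i, E i) (ha : ∀ b i, a b i ≠ 0) (g : B → K) (hg : ∀ b, g b = ∏ i, (a b i : K))
    {n : ℕ} (y : Fin n → K) (hy0 : ∀ j, y j ≠ 0) {d' c : ℕ} (ρ : Fin d' → Fin n)
    (hcd : c + d' = n) (hind : AlgebraicIndependent (cps E) (y ∘ ρ))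
    (J0 : Type) [Fintype J0] (ι0 : J0 ↪ B ⊕ Fin n) (σ τ : Type) [Finite σ] [Finite τ]
    (G : σ → (J0 → ℤ) →₀ k) (F : τ → (J0 → ℤ) →₀ k) (tw : τ → Prop)
    (hG : ∀ s, lv (G s) (fun j => Sum.elim g y (ι0 j)) = 0)
    (hND : NDV G F (fun j => (ι0 j).isRight = true) tw c)
    (hun : ∀ t, ¬ tw t → (∀ s, ∀ m ∈ (G s).support, ∀ j, ¬ (ι0 j).isRight = true →
      m j = 0) ∧ ∀ m ∈ (F t).support, ∀ j, ¬ (ι0 j).isRight = true → m j = 0) :
    ∃ (f' : Fin m → IntermediateField.adjoin (cps E) (Set.range y))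
      (F' : τ → IntermediateField.adjoin (cps E) (Set.range y))
      (g' : B ⊕ Fin n → IntermediateField.adjoin (cps E) (Set.range y)),
      (∀ i, (f' i : K) = f i) ∧
      (∀ t, (F' t : K) = lv (F t) (fun j => Sum.elim g y (ι0 j))) ∧
      (∀ q, (g' q : K) = Sum.elim g y q) ∧ GMA p k (Sum.elim f' F') g' := by
  classical
  let L0 := cps E
  let K1 : IntermediateField L0 K := IntermediateField.adjoin L0 (Set.range y)
  have tL : IsScalarTower k L0 K1 := IsScalarTower.of_algebraMap_eq fun c => rfl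
  have hG1 := gma_cps (p := p) hE f B (fun i b => a b i) (fun i b => ha b i)
  have hG2 := gma_prod_mono hG1
  let y' : Fin n → K1 := fun j => ⟨y j, IntermediateField.subset_adjoin _ _ ⟨j, rfl⟩⟩
  have hy' : ∀ j, y' j ≠ 0 := fun j h => hy0 j (congrArg Subtype.val h)
  have hgen1 : IntermediateField.adjoin L0 (Set.range y') = ⊤ := by
    apply IntermediateField.lift_injective K1
    rw [IntermediateField.lift_adjoin, IntermediateField.lift_top, ← Set.range_comp]
    rfl
  obtain ⟨b0, hb0⟩ := exists_dn (K0 := L0) htr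
  have hind' : AlgebraicIndependent L0 (y' ∘ ρ) :=
    (K1.val.algebraicIndependent_iff K1.val.injective).1 hind
  have hdn : ∃ b : Fin (d0 + d') → K1, AlgebraicIndependent k b := by
    have hb1 : AlgebraicIndependent k (fun i => algebraMap L0 K1 (b0 i)) :=
      hb0.map' (f := IsScalarTower.toAlgHom k L0 K1) (algebraMap L0 K1).injective
    have h1 := hb1.sumElim_of_tower (S := L0) (y := y' ∘ ρ)
      (by rintro _ ⟨i, rfl⟩; exact ⟨b0 i, rfl⟩) hind'
    let ε : Fin (d0 + d') ≃ Fin d' ⊕ Fin d0 := finSumFinEquiv.symm.trans (Equiv.sumComm _ _)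
    exact ⟨_, h1.comp ε ε.injective⟩
  let gL : B → L0 := fun b => ∏ i, (⟨(a b i : K), mem_cps E i (a b i)⟩ : cps E)
  have hgL : ∀ b, ((algebraMap L0 K1 (gL b) : K1) : K) = g b := by
    intro b
    rw [hg b]
    have h1 : ((algebraMap L0 K1 (gL b) : K1) : K) = L0.val (gL b) := rfl
    rw [h1]
    change L0.val (∏ i, _) = _
    rw [map_prod]
    rfl
  have hgyK : ∀ q, ((Sum.elim (fun b => (IsScalarTower.toAlgHom k L0 K1) (gL b)) y' q : K1) : K) =
      Sum.elim g y q := by
    rintro (b | j)
    · exact hgL b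
    · rfl
  have hlvK : ∀ A : (J0 → ℤ) →₀ k, ((lv (exF ι0 A)
      (Sum.elim (fun b => (IsScalarTower.toAlgHom k L0 K1) (gL b)) y') : K1) : K) =
        lv A (fun j => Sum.elim g y (ι0 j)) := by
    intro A
    have h1 : ∀ z : J0 → K1, ((lv A z : K1) : K) = lv A (fun j => (z j : K)) := by
      intro z
      change (K1.val.restrictScalars k) (lv A z) = _
      unfold lv
      rw [map_sum]
      refine Finset.sum_congr rfl fun q _ => ?_
      rw [map_smul, map_prod]
      refine congrArg _ ?_
      exact Finset.prod_congr rfl fun j _ => map_zpow₀ _ _ _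
    rw [exF_lv, h1]
    congr 1
    funext j
    exact hgyK _
  have hmain := gma_relative p (c := c) (d := d0 + d') htr
    (j1' := IsScalarTower.toAlgHom k L0 K1) hy' (evm_gen hgen1) (by omega) hdn hG2
    (fun s => exF ι0 (G s)) (fun t => exF ι0 (F t)) tw
    (fun s => Subtype.ext ((hlvK (G s)).trans (hG s)))
    (hND.ext ι0 fun i h => h) (fun t ht => ⟨fun s q hq j hj =>
      exF_unt ι0 (vt0 := fun i => (ι0 i).isRight = true)
        (vt := fun q : B ⊕ Fin n => q.isRight = true) (fun i h => h)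
      ((hun t ht).1 s) q hq j hj, fun q hq j hj =>
      exF_unt ι0 (vt0 := fun i => (ι0 i).isRight = true)
        (vt := fun q : B ⊕ Fin n => q.isRight = true) (fun i h => h)
      ((hun t ht).2) q hq j hj⟩)
  exact ⟨_, _, _, fun i => rfl, fun t => hlvK (F t), hgyK, hmain⟩

/-- Models of the covers. -/
theorem sch_modelE (hE : AreIndependentSurfaceFields E)
    (htr : Algebra.trdeg k K < Cardinal.aleph0) (f : ∀ i, E i)
    {h : ℕ} (uu : Fin h → ∀ i, E i) (huu : ∀ b i, uu b i ≠ 0) (u : Fin h → K)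
    (hu : ∀ b, u b = ∏ i, (uu b i : K))
    {n : ℕ} (y : Fin n → K) (hy0 : ∀ j, y j ≠ 0) {d' c : ℕ} (ρ : Fin d' → Fin n)
    (hcd : c + d' = n) (hind : AlgebraicIndependent (cps E) (y ∘ ρ))
    (σ τ : Type) [Finite σ] [Fintype τ]
    (G : σ → (Fin h ⊕ Fin n → ℤ) →₀ k) (F : τ → (Fin h ⊕ Fin n → ℤ) →₀ k) (tw : τ → Prop)
    (hG : ∀ s, lv (G s) (Sum.elim u y) = 0)
    (hND : NDV G F (fun j => j.isRight = true) tw c)
    (hun : ∀ t, ¬ tw t → (∀ s, ∀ m ∈ (G s).support, ∀ j, ¬ j.isRight = true →
      m j = 0) ∧ ∀ m ∈ (F t).support, ∀ j, ¬ j.isRight = true → m j = 0)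
    {r : ℕ} (w : Fin r → K)
    (hw : ∀ j, w j ^ p - w j ∈ AddSubgroup.closure
      ((Set.range fun i => (f i : K)) ∪ Set.range fun t => lv (F t) (Sum.elim u y)))
    (hgen : IntermediateField.adjoin k
      (Set.range w ∪ (Set.range y ∪ ⋃ i, (E i : Set K))) = ⊤)
    (S : Type) [Finite S] (v : S → K) (hv : ∀ b, ∃ (s : ∀ i, E i) (e : Fin n → ℤ),
      (∀ i, s i ≠ 0) ∧ v b = (∏ i, (s i : K)) * ∏ j, y j ^ e j) :
    ∃ (T I : Type) (_ : Finite T) (_ : Fintype I) (M : LM (⊥ : Subalgebra k K) ⊤ T I)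
      (Γ : S → I → ℤ), Fn M v Γ ∧ Frc M := by
  classical
  have hfS : Fintype S := Fintype.ofFinite S
  have hcK : CharP K p := charP_of_injective_algebraMap (algebraMap k K).injective p
  obtain ⟨lam, mu, hlm⟩ := exists_coeff p K w _ _ hw
  choose s ex hs hsv using hv
  let L0 := cps E
  obtain ⟨d0, hd0⟩ : ∃ d0 : ℕ, Algebra.trdeg k L0 = d0 := by
    have h3 : Algebra.trdeg k L0 ≤ Algebra.trdeg k K :=
      _root_.trdeg_le_of_injective L0.val L0.val.injective
    exact Cardinal.lt_aleph0.1 (h3.trans_lt htr)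
  let g2 : Fin h ⊕ S → K := Sum.elim u fun b => ∏ i, (s b i : K)
  let ι2 : (Fin h ⊕ Fin n) ↪ (Fin h ⊕ S) ⊕ Fin n :=
    ⟨Sum.map Sum.inl id, Function.Injective.sumMap Sum.inl_injective Function.injective_id⟩
  have hright : ∀ j, (ι2 j).isRight = j.isRight := by
    intro j
    rcases j with q | q <;> rfl
  have hz : (fun j => Sum.elim g2 y (ι2 j)) = Sum.elim u y := by
    funext j
    rcases j with q | q <;> rfl
  obtain ⟨f', F', g', hf', hF', hg', hGM⟩ := sch_gmaE (p := p) hE hd0 f (Fin h ⊕ S)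
    (Sum.elim uu s) (by
      rintro (b | b) i
      · exact huu b i
      · exact hs b i) g2 (by
      rintro (b | b)
      · exact hu b
      · rfl) y hy0 ρ hcd hind (Fin h ⊕ Fin n) ι2 σ τ G F tw
    (by
      intro s
      rw [hz]
      exact hG s)
    (by
      have h1 : (fun j => (ι2 j).isRight = true) =
          fun j : Fin h ⊕ Fin n => j.isRight = true := by
        funext j
        rw [hright]
      rw [h1]
      exact hND)
    (by
      intro t ht
      simp only [hright]
      exact hun t ht)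
  let K1 : IntermediateField L0 K := IntermediateField.adjoin L0 (Set.range y)
  have hcK1 : CharP K1 p := charP_of_injective_algebraMap (algebraMap k K1).injective p
  have hGT := gmt_init wt_pack hGM
  have tK : IsScalarTower k K1 K := IsScalarTower.of_algebraMap_eq fun c => rfl
  have htop : IntermediateField.adjoin K1 (Set.range w) = ⊤ := by
    rw [eq_top_iff]
    intro x _
    have h1 : x ∈ IntermediateField.adjoin k
        (Set.range w ∪ (Set.range y ∪ ⋃ i, (E i : Set K))) := by
      rw [hgen]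
      trivial
    have h2 : IntermediateField.adjoin k
        (Set.range w ∪ (Set.range y ∪ ⋃ i, (E i : Set K))) ≤
        (IntermediateField.adjoin K1 (Set.range w)).restrictScalars k := by
      rw [IntermediateField.adjoin_le_iff]
      rintro z (hz | hz | hz)
      · exact IntermediateField.subset_adjoin K1 _ hz
      · exact (IntermediateField.adjoin K1 (Set.range w)).algebraMap_mem
          ⟨z, IntermediateField.subset_adjoin L0 _ hz⟩
      · have h3 : z ∈ L0 := IntermediateField.subset_adjoin k _ hz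
        exact (IntermediateField.adjoin K1 (Set.range w)).algebraMap_mem
          ⟨z, K1.algebraMap_mem (⟨z, h3⟩ : L0)⟩
    exact h2 h1
  obtain ⟨T', I', hT', hI', M', n', a', h', Λ', R', Γ', -, hFn, hR'⟩ :=
    gmt_tower wt_pack p k r K1 K _ _ hGT w (fun j => Sum.elim (lam j) (mu j)) (by
      intro j
      rw [hlm j, Fintype.sum_sum_type]
      congr 1
      · refine Finset.sum_congr rfl fun i _ => ?_
        exact congrArg _ (hf' i).symm
      · refine Finset.sum_congr rfl fun t _ => ?_
        have h5 : lv (F t) (Sum.elim u y) = (F' t : K) := by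
          rw [hF', hz]
        rw [h5]
        rfl) htop
  have h1 : (fun b => algebraMap K1 K (g' b)) = Sum.elim g2 y := funext hg'
  rw [h1] at hFn
  have hFn2 := fn_monomials hFn (fun b : S => Sum.inr b) ex
  have h6 : v = fun b : S => g2 (Sum.inr b) * ∏ j, y j ^ ex b j := funext fun b => hsv b
  rw [h6]
  exact ⟨T', I', hT', hI', M', _, hFn2, hR'⟩

end gen

end Pool.Agent.TH214.U
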