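import Pool.Agent.TH214.U.Sch
import Pool.Agent.TH214.V.SchResP
import Pool.Agent.TH188.VT.Main

/-!
# Purely inseparable covers of schön subvarieties of tori over composita of surface fields
-/

set_option autoImplicit false
set_option linter.unusedVariables false
set_option linter.unusedSectionVars false

universe u

open Polynomial TensorProduct Pool.Agent.TH188.WP Pool.Agent.TH188.WQ Pool.Agent.W558
  Pool.Agent.TH188.VT Pool.Agent.TH188.VQ Pool.Agent.W558.WT Pool.Agent.TH214.V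

namespace Pool.Agent.TH214.U

section gen

variable {p : ℕ} [Fact p.Prime] {k K : Type u} [Field k] [PerfectField k] [CharP k p] [Field K]
  [Algebra k K] {m : ℕ} {E : Fin m → IntermediateField k K}

/-- Joint normal form of sums of products. -/
theorem gm_sums (hE : AreIndependentSurfaceFields E) (J : Type) [Fintype J] (g : J → ∀ i, E i)
    (hg : ∀ i j j', j ≠ j' → (∃ b, b ^ p = g j i) ∨ ∃ b, b ^ p = g j' i)
    (hg0 : ∀ j i, g j i ≠ 0) (r : ℕ) (lam : Fin r → J → k)
    (B : Type) [Finite B] (s : B → ∀ i, E i) (hs : ∀ b i, s b i ≠ 0) :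
    ∃ (J1 : Type) (_ : Fintype J1) (F1 : J1 → cps E) (lam1 : Fin r → J1 → k)
      (a0 : Fin r → cps E),
      GM p k F1 (fun b => ∏ i, (⟨(s b i : K), mem_cps E i (s b i)⟩ : cps E)) ∧
      ∀ j, ∑ t, algebraMap k (cps E) (lam j t) *
          ∏ i, (⟨(g t i : K), mem_cps E i (g t i)⟩ : cps E) =
        ∑ t : J1, algebraMap k (cps E) (lam1 j t) * F1 t + a0 j ^ p := by
  classical
  have hp : p.Prime := Fact.out
  obtain ⟨hE1, hdis⟩ := surfM_of hE
  let L := cps E
  have hcL : CharP L p := charP_of_injective_algebraMap (algebraMap k L).injective p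
  let e : ∀ i, E i →ₐ[k] L := fun i =>
    (E i).val.codRestrict L.toSubalgebra (fun a => mem_cps E i a)
  -- roots
  have hroot : ∀ (j : J) i, ∃ b : E i, b ≠ 0 ∧ ((∃ b, b ^ p = g j i) → b ^ p = g j i) ∧
      ((¬ ∃ b, b ^ p = g j i) → b = 1) := by
    intro j i
    by_cases h : ∃ b, b ^ p = g j i
    · obtain ⟨b, hb⟩ := h
      refine ⟨b, ?_, fun _ => hb, fun h => absurd ⟨b, hb⟩ h⟩
      rintro rfl
      rw [zero_pow hp.ne_zero] at hb
      exact hg0 j i hb.symm
    · exact ⟨1, one_ne_zero, fun h' => absurd h' h, fun _ => rfl⟩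
  choose bb hbb0 hbb hbb' using hroot
  let ι : Fin m → Type := fun i => {j : J // ¬ ∃ b, b ^ p = g j i}
  have hιs : ∀ i, Subsingleton (ι i) := by
    intro i
    refine ⟨fun a b => ?_⟩
    by_contra hne
    have h1 : a.1 ≠ b.1 := fun h => hne (Subtype.ext h)
    rcases hg i a.1 b.1 h1 with h | h
    · exact a.2 h
    · exact b.2 h
  let f : ∀ i, ι i → E i := fun i l => g l.1 i
  have hf : ∀ i l, ¬ ∃ b, b ^ p = f i l := fun i l => l.2
  let c : ∀ i, (J ⊕ J) ⊕ B → E i := fun i => Sum.elim (Sum.elim (fun j => g j i) fun j => bb j i)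
    (fun b => s b i)
  have hc : ∀ i b, c i b ≠ 0 := by
    rintro i ((j | j) | b)
    · exact hg0 j i
    · exact hbb0 j i
    · exact hs b i
  have hGM := gm_cps p E hE1 hdis ι f hf ((J ⊕ J) ⊕ B) c hc
  let J1 := {j : J // ∃ i, ¬ ∃ b, b ^ p = g j i}
  let σ : (Σ i, ι i) → J1 := fun q => ⟨q.2.1, q.1, q.2.2⟩
  have hσs : Function.Surjective σ := by
    rintro ⟨j, i, hji⟩
    exact ⟨⟨i, ⟨j, hji⟩⟩, rfl⟩
  have hcl : ∀ i (b : (J ⊕ J) ⊕ B), e i (c i b) ∈ Submonoid.closure
      (Set.range fun q : Fin m × ((J ⊕ J) ⊕ B) => (⟨(c q.1 q.2 : K), mem_cps E _ _⟩ : L)) :=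
    fun i b => Submonoid.subset_closure ⟨(i, b), rfl⟩
  have hGM2 := gm_pr p hGM σ hσs (fun j => ∏ i, e i (bb j.1 i))
    (fun q => hcl q.1 (Sum.inl (Sum.inl q.2.1)))
    (fun j => Submonoid.prod_mem _ fun i _ => hcl i (Sum.inl (Sum.inr j.1)))
  have hlam : ∀ j t, ∃ m : k, m ^ p = lam j t := fun j t => by
    obtain ⟨m, hm⟩ := (bijective_frobenius k p).2 (lam j t)
    exact ⟨m, hm⟩
  choose mu hmu using hlam
  let a0 : Fin r → L := fun j => ∑ t, if (∃ i, ¬ ∃ b, b ^ p = g t i) then 0 else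
    algebraMap k L (mu j t) * ∏ i, e i (bb t i)
  have hfib : ∀ t : J1, ∏ i, e i (g t.1 i) = (∏ i, e i (bb t.1 i)) ^ p *
      ∏ q ∈ Finset.univ.filter (fun q => σ q = t), e q.1 (g q.2.1 q.1) := fun t =>
    prod_fiber p (fun i => (e i : E i →+* L)) g hg0 bb hbb hbb' σ (fun q => rfl) t
  have hsum : ∀ j, ∑ t, algebraMap k L (lam j t) * ∏ i, e i (g t i) =
      ∑ t : J1, algebraMap k L (lam j t.1) * ∏ i, e i (g t.1 i) + a0 j ^ p := by
    intro j
    change _ = _ + (∑ t, _) ^ p
    rw [sum_pow_char]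
    have h1 : ∀ t, algebraMap k L (lam j t) * ∏ i, e i (g t i) =
        (if (∃ i, ¬ ∃ b, b ^ p = g t i) then algebraMap k L (lam j t) * ∏ i, e i (g t i) else 0) +
        (if (∃ i, ¬ ∃ b, b ^ p = g t i) then 0 else
          algebraMap k L (mu j t) * ∏ i, e i (bb t i)) ^ p := by
      intro t
      split_ifs with h
      · rw [zero_pow hp.ne_zero, add_zero]
      · push Not at h
        rw [zero_add, mul_pow, ← map_pow, hmu, ← Finset.prod_pow]
        congr 1
        refine Finset.prod_congr rfl fun i _ => ?_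
        rw [← map_pow, hbb t i (h i)]
    rw [Finset.sum_congr rfl fun t _ => h1 t, Finset.sum_add_distrib]
    congr 1
    rw [← Finset.sum_filter]
    rw [Finset.sum_subtype (Finset.univ.filter fun t => ∃ i, ¬ ∃ b, b ^ p = g t i)
      (p := fun t => ∃ i, ¬ ∃ b, b ^ p = g t i) (F := inferInstance) (by simp)]
  obtain ⟨T, I, hT, hI, M, n0, a, h, Γ, hN, hF, hR⟩ := hGM2
  obtain ⟨Γ', hΓ'⟩ := fin_model hF
    (fun b : B => ∏ i, (⟨(s b i : K), mem_cps E i (s b i)⟩ : cps E)) (by
    intro b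
    refine Submonoid.prod_mem _ fun i _ => Submonoid.subset_closure ⟨(i, Sum.inr b), rfl⟩)
  refine ⟨J1, inferInstance, _, fun j t => lam j t.1, a0,
    ⟨T, I, hT, hI, M, n0, a, h, Γ', hN, hΓ', hR⟩, fun j => ?_⟩
  refine (hsum j).trans ?_
  congr 1
  exact Finset.sum_congr rfl fun t _ => by rw [hfib t]; rfl

/-- Models of the purely inseparable covers. -/
theorem sch_modelP (hE : AreIndependentSurfaceFields E)
    (htr : Algebra.trdeg k K < Cardinal.aleph0) (J : Type) [Fintype J] (g : J → ∀ i, E i)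
    (hg : ∀ i j j', j ≠ j' → (∃ b, b ^ p = g j i) ∨ ∃ b, b ^ p = g j' i)
    (hg0 : ∀ j i, g j i ≠ 0)
    {h : ℕ} (uu : Fin h → ∀ i, E i) (huu : ∀ b i, uu b i ≠ 0) (u : Fin h → K)
    (hu : ∀ b, u b = ∏ i, (uu b i : K))
    {n : ℕ} (y : Fin n → K) (hy0 : ∀ j, y j ≠ 0) {d' c : ℕ} (ρ : Fin d' → Fin n)
    (hcd : c + d' = n) (hind : AlgebraicIndependent (cps E) (y ∘ ρ))
    (σ τ : Type) [Finite σ] [Fintype τ]
    (G : σ → (Fin h ⊕ Fin n → ℤ) →₀ k) (F : τ → (Fin h ⊕ Fin n → ℤ) →₀ k)
    (hG : ∀ s, lv (G s) (Sum.elim u y) = 0)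
    (hND : NDV G F (fun j => j.isRight = true) (fun _ => True) c)
    {r : ℕ} (w : Fin r → K) (lam : Fin r → J → k) (mu : Fin r → τ → k)
    (hw : ∀ j, w j ^ p = ∑ t, lam j t • ∏ i, (g t i : K) +
      ∑ t, mu j t • lv (F t) (Sum.elim u y))
    (hgen : IntermediateField.adjoin k
      (Set.range w ∪ (Set.range y ∪ ⋃ i, (E i : Set K))) = ⊤)
    (S : Type) [Finite S] (v : S → K) (hv : ∀ b, ∃ (s : ∀ i, E i) (e : Fin n → ℤ),
      (∀ i, s i ≠ 0) ∧ v b = (∏ i, (s i : K)) * ∏ j, y j ^ e j) :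
    ∃ (T I : Type) (_ : Finite T) (_ : Fintype I) (M : LM (⊥ : Subalgebra k K) ⊤ T I)
      (Γ : S → I → ℤ), Fn M v Γ ∧ Frc M := by
  classical
  have hp : p.Prime := Fact.out
  have hfS : Fintype S := Fintype.ofFinite S
  have hcK : CharP K p := charP_of_injective_algebraMap (algebraMap k K).injective p
  choose s ex hs hsv using hv
  let L0 := cps E
  obtain ⟨d0, hd0⟩ : ∃ d0 : ℕ, Algebra.trdeg k L0 = d0 := by
    have h3 : Algebra.trdeg k L0 ≤ Algebra.trdeg k K :=
      _root_.trdeg_le_of_injective L0.val L0.val.injective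
    exact Cardinal.lt_aleph0.1 (h3.trans_lt htr)
  let sB : (Fin h ⊕ S) → ∀ i, E i := Sum.elim uu s
  have hsB : ∀ b i, sB b i ≠ 0 := by
    rintro (b | b) i
    · exact huu b i
    · exact hs b i
  let g2 : Fin h ⊕ S → K := Sum.elim u fun b => ∏ i, (s b i : K)
  have hg2 : ∀ b, g2 b = ∏ i, (sB b i : K) := by
    rintro (b | b)
    · exact hu b
    · rfl
  obtain ⟨J1, hJ1, F1, lam1, a0, hGM0, hsum⟩ := gm_sums (p := p) hE J g hg hg0 r lam
    (Fin h ⊕ S) sB hsB
  let ι2 : (Fin h ⊕ Fin n) ↪ (Fin h ⊕ S) ⊕ Fin n :=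
    ⟨Sum.map Sum.inl id, Function.Injective.sumMap Sum.inl_injective Function.injective_id⟩
  have hright : ∀ j, (ι2 j).isRight = j.isRight := by
    intro j
    rcases j with q | q <;> rfl
  have hz : (fun j => Sum.elim g2 y (ι2 j)) = Sum.elim u y := by
    funext j
    rcases j with q | q <;> rfl
  let K1 : IntermediateField L0 K := IntermediateField.adjoin L0 (Set.range y)
  have tL : IsScalarTower k L0 K1 := IsScalarTower.of_algebraMap_eq fun c => rfl
  have hcK1 : CharP K1 p := charP_of_injective_algebraMap (algebraMap k K1).injective p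
  let y' : Fin n → K1 := fun j => ⟨y j, IntermediateField.subset_adjoin _ _ ⟨j, rfl⟩⟩
  have hy' : ∀ j, y' j ≠ 0 := fun j h => hy0 j (congrArg Subtype.val h)
  have hgen1 : IntermediateField.adjoin L0 (Set.range y') = ⊤ := by
    apply IntermediateField.lift_injective K1
    rw [IntermediateField.lift_adjoin, IntermediateField.lift_top, ← Set.range_comp]
    rfl
  obtain ⟨b0, hb0⟩ := exists_dn (K0 := L0) hd0
  have hind' : AlgebraicIndependent L0 (y' ∘ ρ) :=
    (K1.val.algebraicIndependent_iff K1.val.injective).1 hind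
  have hdn : ∃ b : Fin (d0 + d') → K1, AlgebraicIndependent k b := by
    have hb1 : AlgebraicIndependent k (fun i => algebraMap L0 K1 (b0 i)) :=
      hb0.map' (f := IsScalarTower.toAlgHom k L0 K1) (algebraMap L0 K1).injective
    have h1 := hb1.sumElim_of_tower (S := L0) (y := y' ∘ ρ)
      (by rintro _ ⟨i, rfl⟩; exact ⟨b0 i, rfl⟩) hind'
    let ε : Fin (d0 + d') ≃ Fin d' ⊕ Fin d0 := finSumFinEquiv.symm.trans (Equiv.sumComm _ _)
    exact ⟨_, h1.comp ε ε.injective⟩
  let gL : Fin h ⊕ S → L0 := fun b => ∏ i, (⟨(sB b i : K), mem_cps E i (sB b i)⟩ : cps E)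
  have hgL : ∀ b, ((algebraMap L0 K1 (gL b) : K1) : K) = g2 b := by
    intro b
    rw [hg2 b]
    have h1 : ((algebraMap L0 K1 (gL b) : K1) : K) = L0.val (gL b) := rfl
    rw [h1]
    change L0.val (∏ i, _) = _
    rw [map_prod]
    rfl
  have hgyK : ∀ q, ((Sum.elim (fun b => (IsScalarTower.toAlgHom k L0 K1) (gL b)) y' q : K1) : K) =
      Sum.elim g2 y q := by
    rintro (b | j)
    · exact hgL b
    · rfl
  have hlvK : ∀ A : (Fin h ⊕ Fin n → ℤ) →₀ k, ((lv (exF ι2 A)
      (Sum.elim (fun b => (IsScalarTower.toAlgHom k L0 K1) (gL b)) y') : K1) : K) =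
        lv A (fun j => Sum.elim g2 y (ι2 j)) := by
    intro A
    have h1 : ∀ z : (Fin h ⊕ Fin n) → K1, ((lv A z : K1) : K) = lv A (fun j => (z j : K)) := by
      intro z
      change (K1.val.restrictScalars k) (lv A z) = _
      unfold lv
      rw [map_sum]
      refine Finset.sum_congr rfl fun q _ => ?_
      rw [map_smul, map_prod]
      refine congrArg _ ?_
      exact Finset.prod_congr rfl fun j _ => map_zpow₀ _ _ _
    rw [exF_lv, h1]
    congr 1
    funext j
    exact hgyK _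
  have hGM := gm_relative p (c := c) (d := d0 + d') hd0
    (j1' := IsScalarTower.toAlgHom k L0 K1) hy' (evm_gen hgen1) (by omega) hdn hGM0
    (fun s => exF ι2 (G s)) (fun t => exF ι2 (F t))
    (fun s => Subtype.ext ((hlvK (G s)).trans (by rw [hz]; exact hG s)))
    ((show NDV G F (fun j => (ι2 j).isRight = true) (fun _ => True) c by
      simp only [hright]
      exact hND).ext ι2 fun i h => h)
  -- the new roots
  have tK : IsScalarTower k K1 K := IsScalarTower.of_algebraMap_eq fun c => rfl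
  let w' : Fin r → K := fun j => w j - (a0 j : K)
  have hgs : ∀ j, ((∑ t, algebraMap k L0 (lam j t) *
      ∏ i, (⟨(g t i : K), mem_cps E i (g t i)⟩ : L0) : L0) : K) =
        ∑ t, lam j t • ∏ i, (g t i : K) := by
    intro j
    change L0.val (∑ t, algebraMap k L0 (lam j t) *
      ∏ i, (⟨(g t i : K), mem_cps E i (g t i)⟩ : L0)) = _
    rw [map_sum]
    refine Finset.sum_congr rfl fun t _ => ?_
    rw [map_mul, map_prod, Algebra.smul_def]
    rfl
  have hw' : ∀ j, w' j ^ p = algebraMap K1 K (∑ l : J1 ⊕ τ,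
      algebraMap k K1 (Sum.elim (lam1 j) (mu j) l) *
        Sum.elim (fun l => (IsScalarTower.toAlgHom k L0 K1) (F1 l))
          (fun t => lv (exF ι2 (F t))
            (Sum.elim (fun b => (IsScalarTower.toAlgHom k L0 K1) (gL b)) y')) l) := by
    intro j
    have h1 : w' j ^ p = w j ^ p - (a0 j : K) ^ p := sub_pow_char _ _
    have h2 : ((∑ t : J1, algebraMap k L0 (lam1 j t) * F1 t : L0) : K) + (a0 j : K) ^ p =
        ∑ t, lam j t • ∏ i, (g t i : K) := by
      rw [← hgs j, hsum j]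
      rfl
    have h3 : ((∑ t : J1, algebraMap k L0 (lam1 j t) * F1 t : L0) : K) =
        algebraMap K1 K (∑ t : J1, algebraMap k K1 (lam1 j t) *
          (IsScalarTower.toAlgHom k L0 K1) (F1 t)) := by
      change L0.val (∑ t : J1, algebraMap k L0 (lam1 j t) * F1 t) = _
      rw [map_sum, map_sum]
      rfl
    have h4 : ∑ t, mu j t • lv (F t) (Sum.elim u y) = algebraMap K1 K (∑ t, algebraMap k K1
        (mu j t) * lv (exF ι2 (F t))
            (Sum.elim (fun b => (IsScalarTower.toAlgHom k L0 K1) (gL b)) y')) := by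
      rw [map_sum]
      refine Finset.sum_congr rfl fun t _ => ?_
      rw [map_mul, Algebra.smul_def, ← hz, ← hlvK]
      rfl
    rw [h1, hw j, h4, ← h2, h3, Fintype.sum_sum_type]
    simp only [Sum.elim_inl, Sum.elim_inr, map_add]
    ring
  have htop : IntermediateField.adjoin K1 (Set.range w') = ⊤ := by
    rw [eq_top_iff]
    intro x _
    have h1 : x ∈ IntermediateField.adjoin k
        (Set.range w ∪ (Set.range y ∪ ⋃ i, (E i : Set K))) := by
      rw [hgen]
      trivial
    have h2 : IntermediateField.adjoin k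
        (Set.range w ∪ (Set.range y ∪ ⋃ i, (E i : Set K))) ≤
        (IntermediateField.adjoin K1 (Set.range w')).restrictScalars k := by
      rw [IntermediateField.adjoin_le_iff]
      rintro z (⟨j, rfl⟩ | hz | hz)
      · have h3 : w j = w' j + algebraMap K1 K (algebraMap L0 K1 (a0 j)) :=
          (sub_add_cancel _ _).symm
        rw [h3]
        exact (IntermediateField.adjoin K1 (Set.range w')).add_mem
          (IntermediateField.subset_adjoin K1 _ ⟨j, rfl⟩)
          ((IntermediateField.adjoin K1 (Set.range w')).algebraMap_mem _)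
      · exact (IntermediateField.adjoin K1 (Set.range w')).algebraMap_mem
          ⟨z, IntermediateField.subset_adjoin L0 _ hz⟩
      · have h3 : z ∈ L0 := IntermediateField.subset_adjoin k _ hz
        exact (IntermediateField.adjoin K1 (Set.range w')).algebraMap_mem
          ⟨z, K1.algebraMap_mem (⟨z, h3⟩ : L0)⟩
    exact h2 h1
  obtain ⟨T', I', hT', hI', M', Γ', hFn, hR'⟩ := Pool.Agent.TH188.WQ.tower_add p K hGM r w'
    (fun j => Sum.elim (lam1 j) (mu j)) hw' htop
  have h1 : (fun b => algebraMap K1 K (Sum.elim (fun b => (IsScalarTower.toAlgHom k L0 K1) (gL b))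
      y' b)) = Sum.elim g2 y := funext hgyK
  rw [h1] at hFn
  have hFn2 := fn_monomials hFn (fun b : S => Sum.inr b) ex
  have h6 : v = fun b : S => g2 (Sum.inr b) * ∏ j, y j ^ ex b j := funext fun b => hsv b
  rw [h6]
  exact ⟨T', I', hT', hI', M', _, hFn2, hR'⟩

end gen

end Pool.Agent.TH214.U
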