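import Pool.Agent.TH188.VT.Main
import Pool.Agent.TH214.Q.Main
import Pool.Agent.TH214.Res
import Pool.Agent.W135.WT.Fam

/-!
# Models of Artin-Schreier towers over Kummer extensions of composita of surface fields
-/

set_option autoImplicit false
set_option linter.unusedVariables false
set_option linter.unusedSectionVars false

universe u

open Polynomial TensorProduct Pool.Agent.TH188.WP Pool.Agent.W558 Pool.Agent.TH188.VT
  Pool.Agent.TH188.VQ Pool.Agent.W558.WT

namespace Pool.Agent.TH214.U

section as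

variable {p : ℕ} [Fact p.Prime] {k K : Type u} [Field k] [PerfectField k] [CharP k p] [Field K]
  [Algebra k K] {n : ℕ} {E : Fin n → IntermediateField k K}

lemma surf_of (hE : AreIndependentSurfaceFields E) :
    (∀ i, Algebra.trdeg k (E i) = 2 ∧ HasModel k (E i)) ∧ Function.Injective (mulHom E) := by
  rcases hE with ⟨h, hd⟩ | ⟨x, hx, hE⟩
  · exact ⟨fun i => ⟨(h i).1, hasModel_of (h i).2⟩, hd⟩
  · have hxi : ∀ i, AlgebraicIndependent k (x i) := fun i =>
      hx.comp (fun c => (i, c)) (Prod.mk_right_injective i)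
    have hE' : E = fun i => IntermediateField.adjoin k (Set.range (x i)) := funext hE
    subst hE'
    exact ⟨fun i => pair_field (x i) (hxi i), disj_of_ind x hx⟩

/-- The joint normal form on the compositum. -/
theorem gma_cps (hE : AreIndependentSurfaceFields E) (f : ∀ i, E i) (G : Type) [Finite G]
    (c : ∀ i, G → E i) (hc : ∀ i b, c i b ≠ 0) :
    GMA p k (fun i => (⟨(f i : K), mem_cps E i (f i)⟩ : cps E))
      (fun q : Fin n × G => (⟨(c q.1 q.2 : K), mem_cps E _ _⟩ : cps E)) := by
  obtain ⟨hE', hdis⟩ := surf_of hE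
  let L := cps E
  let e : ∀ i, E i →ₐ[k] L := fun i =>
    (E i).val.codRestrict L.toSubalgebra (fun a => mem_cps E i a)
  let φ : (⨂[k] i, E i) →ₐ[k] L := (mulHom E).codRestrict L.toSubalgebra (mulHom_mem E)
  have hφ : ∀ i a, φ (PiTensorProduct.singleAlgHom (R := k) (A := fun i => E i) i a) = e i a :=
    fun i a => Subtype.ext (mulHom_single E i a)
  have hinj : Function.Injective φ := fun x y h => hdis (congrArg Subtype.val h)
  have hfr : ∀ x : L, ∃ a b, φ b ≠ 0 ∧ x * φ b = φ a := by
    intro x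
    obtain ⟨a, b, hb, h⟩ := cps_frac E x x.2
    exact ⟨a, b, fun h0 => hb (congrArg Subtype.val h0), Subtype.ext h⟩
  exact Pool.Agent.W135.WT.Fam.main wa_prod p k L n (fun i => E i) e φ hφ hinj hfr G f c
    fun i => gma_surf ws_pack p k (E i) (hE' i).1 (hE' i).2 G (f i) (c i) (hc i)

/-- Models of Artin-Schreier towers over Kummer extensions. -/
theorem exists_models_as (hE : AreIndependentSurfaceFields E)
    (htr : Algebra.trdeg k K < Cardinal.aleph0) {m : ℕ} (hm : (m : k) ≠ 0) {s r : ℕ}
    (z : Fin s → K) (hz0 : ∀ j, z j ≠ 0) (u : Fin s → ∀ i, E i)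
    (hz : ∀ j, z j ^ m = ∏ i, (u j i : K)) (f : ∀ i, E i) (w : Fin r → K)
    (hw : ∀ j, w j ^ p - w j ∈ AddSubgroup.closure (Set.range fun i => (f i : K)))
    (hgen : IntermediateField.adjoin k (Set.range w ∪ (Set.range z ∪ ⋃ i, (E i : Set K))) = ⊤)
    (G : Type) [Finite G] (y : G → K) (hy0 : ∀ b, y b ≠ 0)
    (hy : ∀ b, ∃ s : ∀ i, E i, y b = ∏ i, (s i : K)) :
    ∃ (T I : Type) (_ : Finite T) (_ : Fintype I) (M : LM (⊥ : Subalgebra k K) ⊤ T I)
      (Γ : G → I → ℤ), Fn M y Γ ∧ Frc M := by
  classical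
  have hfG : Fintype G := Fintype.ofFinite G
  choose a ha using hy
  have ha0 : ∀ b i, a b i ≠ 0 := by
    intro b i h0
    apply hy0 b
    rw [ha b]
    exact Finset.prod_eq_zero (Finset.mem_univ i) (by rw [h0]; rfl)
  have hu0 : ∀ j i, u j i ≠ 0 := by
    intro j i h0
    apply pow_ne_zero m (hz0 j)
    rw [hz j]
    exact Finset.prod_eq_zero (Finset.mem_univ i) (by rw [h0]; rfl)
  let L0 := cps E
  let c : ∀ i, G ⊕ Fin s → E i := fun i => Sum.elim (fun b => a b i) (fun j => u j i)
  have hc0 : ∀ i b, c i b ≠ 0 := by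
    rintro i (b | j)
    · exact ha0 b i
    · exact hu0 j i
  have hG1 := gma_cps (p := p) hE f (G ⊕ Fin s) c hc0
  obtain ⟨d0, hd0⟩ : ∃ d0 : ℕ, Algebra.trdeg k L0 = d0 := by
    have h3 : Algebra.trdeg k L0 ≤ Algebra.trdeg k K :=
      _root_.trdeg_le_of_injective L0.val L0.val.injective
    exact Cardinal.lt_aleph0.1 (h3.trans_lt htr)
  let lam : Fin s → Fin n × (G ⊕ Fin s) → ℤ := fun j q =>
    Sum.elim (fun _ => 0) (fun j' => if j' = j then 1 else 0) q.2
  have hzl : ∀ j, z j ^ m =
      ((∏ q, (⟨(c q.1 q.2 : K), mem_cps E _ _⟩ : cps E) ^ lam j q : L0) : K) := by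
    intro j
    have h3 : ∏ q : Fin n × (G ⊕ Fin s),
        (⟨(c q.1 q.2 : K), mem_cps E _ _⟩ : cps E) ^ lam j q =
        ∏ i, (⟨(u j i : K), mem_cps E i (u j i)⟩ : cps E) := by
      rw [Fintype.prod_prod_type]
      refine Finset.prod_congr rfl fun i _ => ?_
      rw [Fintype.prod_sum_type]
      have h4 : ∏ b : G, (⟨(c i (Sum.inl b) : K), mem_cps E _ _⟩ : cps E) ^
          lam j (i, Sum.inl b) = 1 := Finset.prod_eq_one fun b _ => zpow_zero _
      rw [h4, one_mul, Finset.prod_eq_single j]
      · change (⟨(u j i : K), _⟩ : cps E) ^ (if j = j then (1 : ℤ) else 0) = _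
        rw [if_pos rfl, zpow_one]
      · intro j' _ hj'
        change (⟨(u j' i : K), _⟩ : cps E) ^ (if j' = j then (1 : ℤ) else 0) = 1
        rw [if_neg hj', zpow_zero]
      · intro h
        exact absurd (Finset.mem_univ _) h
    rw [h3, hz j, ← IntermediateField.algebraMap_apply, map_prod]
    rfl
  have hG2 := Pool.Agent.TH214.Q.kummer_sub p L0 hd0 hm hG1 z hz0 lam hzl
  let L1 := IntermediateField.adjoin L0 (Set.range z)
  have hcL1 : CharP L1 p := charP_of_injective_algebraMap (algebraMap k L1).injective p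
  have hcK : CharP K p := charP_of_injective_algebraMap (algebraMap k K).injective p
  have hG3 := gmt_init wt_pack hG2
  obtain ⟨lam', mu', hlm⟩ := Pool.Agent.TH214.exists_coeff p K w (fun i => (f i : K))
    (fun t : Empty => t.elim) (by
      intro j
      have h5 : (Set.range fun t : Empty => (t.elim : K)) = ∅ := Set.range_eq_empty _
      rw [h5, Set.union_empty]
      exact hw j)
  have tL : IsScalarTower k L1 K := IsScalarTower.of_algebraMap_eq fun c => rfl
  have hgen' : IntermediateField.adjoin L1 (Set.range w) = ⊤ := by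
    rw [eq_top_iff]
    intro x _
    have h1 : x ∈ IntermediateField.adjoin k
        (Set.range w ∪ (Set.range z ∪ ⋃ i, (E i : Set K))) := by
      rw [hgen]
      trivial
    have h2 : IntermediateField.adjoin k
        (Set.range w ∪ (Set.range z ∪ ⋃ i, (E i : Set K))) ≤
        (IntermediateField.adjoin L1 (Set.range w)).restrictScalars k := by
      rw [IntermediateField.adjoin_le_iff]
      rintro y (hy | hy | hy)
      · exact IntermediateField.subset_adjoin L1 _ hy
      · exact (IntermediateField.adjoin L1 (Set.range w)).algebraMap_mem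
          ⟨y, IntermediateField.subset_adjoin L0 _ hy⟩
      · have h3 : y ∈ L0 := IntermediateField.subset_adjoin k _ hy
        exact (IntermediateField.adjoin L1 (Set.range w)).algebraMap_mem
          ⟨y, L1.algebraMap_mem (⟨y, h3⟩ : L0)⟩
    exact h2 h1
  obtain ⟨T, I, hT, hI, M, n', a', h', Λ', R', Γ', -, hF', hR'⟩ :=
    gmt_tower wt_pack p k r L1 K _ _ hG3 w lam' (by
      intro j
      rw [hlm j]
      simp only [Finset.univ_eq_empty, Finset.sum_empty, add_zero]
      rfl) hgen'
  obtain ⟨Γ, hΓ⟩ := fin_model hF' y (by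
    intro b
    rw [ha b]
    refine Submonoid.prod_mem _ fun i _ => Submonoid.subset_closure ⟨(i, Sum.inl b), rfl⟩)
  exact ⟨T, I, hT, hI, M, Γ, hΓ, hR'⟩

end as

end Pool.Agent.TH214.U
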