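import Pool.Agent.TH214.U.Core
import Pool.Agent.TH188.WP.Asm
import Pool.Agent.TH188.WP.Nfj
import Pool.Agent.H920R2.Sr1

/-!
# Valuations which are determined by their values on monomials
-/

set_option autoImplicit false
set_option linter.unusedVariables false
set_option linter.unusedSectionVars false

universe u

open IsLocalRing Pool.Agent.W418.LU2 Pool.Agent.TH188.WP Pool.Agent.W558

namespace Pool.Agent.TH214.U

section mon

variable {k K : Type u} [Field k] [Field K] [Algebra k K]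

/-- The element `N` is dominated by the set `Y`. -/
def Dmn (V : ValuationSubring K) (Y : Set K) (N : K) : Prop :=
  ∃ (m : ℕ) (a : Fin m → K), (∀ j, a j = 0 ∨ a j ∈ Y) ∧ N = ∑ j, a j ∧
    ∀ j, V.valuation (a j) ≤ V.valuation N

lemma Dmn.mono {V : ValuationSubring K} {Y Y' : Set K} (h : Y ⊆ Y') {N : K} (hN : Dmn V Y N) :
    Dmn V Y' N := by
  obtain ⟨m, a, h1, h2, h3⟩ := hN
  exact ⟨m, a, fun j => (h1 j).imp id fun h' => h h', h2, h3⟩

lemma Dmn.fin {V : ValuationSubring K} {Y : Set K} {N : K} (hN : Dmn V Y N) :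
    ∃ Y' : Finset K, (∀ y ∈ Y', y ∈ Y) ∧ Dmn V (Y' : Set K) N := by
  classical
  obtain ⟨m, a, ha, hz, hv⟩ := hN
  refine ⟨(Finset.univ.image a).filter fun y => y ∈ Y, ?_, m, a, ?_, hz, hv⟩
  · intro y hy
    exact (Finset.mem_filter.1 hy).2
  · intro j
    rcases ha j with h | h
    · exact Or.inl h
    · exact Or.inr (Finset.mem_coe.2 (Finset.mem_filter.2
        ⟨Finset.mem_image.2 ⟨j, Finset.mem_univ _, rfl⟩, h⟩))

lemma val_one_inv' {V : ValuationSubring K} {x : K} (hx : V.valuation x = 1) : x⁻¹ ∈ V := by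
  rw [← V.valuation_le_one_iff, map_inv₀, hx, inv_one]

lemma div_mem_lo' {V : ValuationSubring K} {C : Subring K} (hC : C ≤ V.toSubring) {y y' : K}
    (hy : y ≠ 0) (hy' : y' ≠ 0) (h : y / y' ∈ C ∨ y' / y ∈ C)
    (hv : V.valuation y ≤ V.valuation y') : y / y' ∈ lo V.toSubring C := by
  rcases h with h | h
  · exact le_lo _ _ h
  · have h1 : y / y' = (y' / y)⁻¹ := (inv_div _ _).symm
    rw [h1]
    refine inv_mem_lo hC (le_lo _ _ h) (div_ne_zero hy' hy) ?_
    rw [← h1]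
    change y / y' ∈ V
    rw [← V.valuation_le_one_iff, map_div₀]
    exact (div_le_one₀ (zero_lt_iff.2 ((map_ne_zero _).2 hy'))).2 hv

/-- The leading monomial. -/
lemma Dmn.lead {V : ValuationSubring K} {C : Subring K} (hC : C ≤ V.toSubring) {Y : Set K}
    (hY : ∀ y ∈ Y, y ≠ 0) (hcmp : ∀ y ∈ Y, ∀ y' ∈ Y, y / y' ∈ C ∨ y' / y ∈ C) {N : K}
    (hN0 : N ≠ 0) (hN : Dmn V Y N) :
    ∃ y ∈ Y, N / y ∈ lo V.toSubring C ∧ V.valuation (N / y) = 1 := by
  obtain ⟨m, a, ha, hN, hv⟩ := hN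
  have hvN : V.valuation N ≠ 0 := (map_ne_zero _).2 hN0
  have h1 : ∃ j, V.valuation (a j) = V.valuation N := by
    by_contra hcon
    push Not at hcon
    have h2 : V.valuation (∑ j, a j) < V.valuation N :=
      Valuation.map_sum_lt V.valuation hvN fun j _ => lt_of_le_of_ne (hv j) (hcon j)
    rw [← hN] at h2
    exact lt_irrefl _ h2
  obtain ⟨j₀, hj₀⟩ := h1
  have ha0 : a j₀ ≠ 0 := by
    intro h
    rw [h, map_zero] at hj₀
    exact hvN hj₀.symm
  have haY : a j₀ ∈ Y := (ha j₀).resolve_left ha0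
  refine ⟨a j₀, haY, ?_, ?_⟩
  · rw [hN, Finset.sum_div]
    refine sum_mem fun j _ => ?_
    rcases ha j with h | h
    · rw [h, zero_div]
      exact Subring.zero_mem _
    · refine div_mem_lo' hC (hY _ h) ha0 (hcmp _ h _ haY) ?_
      rw [hj₀]
      exact hv j
  · rw [map_div₀, hj₀, div_self hvN]

/-- Quotients of dominated elements. -/
lemma quot_mem' {V : ValuationSubring K} {C : Subring K} (hC : C ≤ V.toSubring) {Y : Set K}
    (hY : ∀ y ∈ Y, y ≠ 0) (hcmp : ∀ y ∈ Y, ∀ y' ∈ Y, y / y' ∈ C ∨ y' / y ∈ C) {N D : K}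
    (hN : Dmn V Y N) (hD : Dmn V Y D) (hD0 : D ≠ 0) (hv : V.valuation (N / D) ≤ 1) :
    N / D ∈ lo V.toSubring C := by
  by_cases hN0 : N = 0
  · rw [hN0, zero_div]
    exact Subring.zero_mem _
  obtain ⟨y, hy, h1, h2⟩ := hN.lead hC hY hcmp hN0
  obtain ⟨y', hy', h3, h4⟩ := hD.lead hC hY hcmp hD0
  have hy0 := hY y hy
  have hy0' := hY y' hy'
  have h5 : N / D = (y / y') * ((N / y) * (D / y')⁻¹) := by
    field_simp
  have h6 : (D / y')⁻¹ ∈ lo V.toSubring C :=
    inv_mem_lo hC h3 (div_ne_zero hD0 hy0') (val_one_inv' h4)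
  rw [h5]
  refine Subring.mul_mem _ (div_mem_lo' hC hy0 hy0' (hcmp y hy y' hy') ?_)
    (Subring.mul_mem _ h1 h6)
  have h7 : V.valuation (y / y') ≤ 1 := by
    rw [h5, map_mul, map_mul, map_inv₀, h2, h4, inv_one, mul_one, mul_one] at hv
    exact hv
  rw [map_div₀] at h7
  exact (div_le_one₀ (zero_lt_iff.2 ((map_ne_zero _).2 hy0'))).1 h7

/-- Elements of the field generated by `S`. -/
theorem exists_set_adj {V : ValuationSubring K} {S Y0 : Set K}
    (hT : ∀ z ∈ Algebra.adjoin k S, Dmn V Y0 z) {c : K} (hc : c ∈ IntermediateField.adjoin k S)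
    (hcV : c ∈ V) :
    ∃ Y : Finset K, (∀ y ∈ Y, y ∈ Y0) ∧ ∀ C : Subring K, C ≤ V.toSubring →
      ∀ Y' : Set K, (Y : Set K) ⊆ Y' → (∀ y ∈ Y', y ≠ 0) →
      (∀ y ∈ Y', ∀ y' ∈ Y', y / y' ∈ C ∨ y' / y ∈ C) → c ∈ lo V.toSubring C := by
  classical
  obtain ⟨r, hr, s, hs, rfl⟩ := (IntermediateField.mem_adjoin_iff_div).1 hc
  by_cases hs0 : s = 0
  · refine ⟨∅, by simp, fun C _ _ _ _ _ => ?_⟩
    rw [hs0, div_zero]
    exact Subring.zero_mem _
  obtain ⟨Y1, h1, h1'⟩ := (hT r hr).fin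
  obtain ⟨Y2, h2, h2'⟩ := (hT s hs).fin
  refine ⟨Y1 ∪ Y2, ?_, ?_⟩
  · intro y hy
    rcases Finset.mem_union.1 hy with h | h
    · exact h1 y h
    · exact h2 y h
  · intro C hC Y' hY' hY0 hcmp
    have h3 : (Y1 : Set K) ⊆ Y' := fun y hy =>
      hY' (Finset.mem_coe.2 (Finset.mem_union_left _ hy))
    have h4 : (Y2 : Set K) ⊆ Y' := fun y hy =>
      hY' (Finset.mem_coe.2 (Finset.mem_union_right _ hy))
    exact quot_mem' hC hY0 hcmp (h1'.mono h3) (h2'.mono h4) hs0
      ((V.valuation_le_one_iff _).2 hcV)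

/-- Elements which are algebraic over the field generated by `S`. -/
theorem exists_set_alg {V : ValuationSubring K} {S Y0 : Set K}
    (hT : ∀ z ∈ Algebra.adjoin k S, Dmn V Y0 z) {z : K}
    (hz : IsAlgebraic (IntermediateField.adjoin k S) z) (hzV : z ∈ V) :
    ∃ Y : Finset K, (∀ y ∈ Y, y ∈ Y0) ∧ ∀ C : Subring K, C ≤ V.toSubring →
      (∀ x : K, IsIntegral C x → x ∈ C) →
      ∀ Y' : Set K, (Y : Set K) ⊆ Y' → (∀ y ∈ Y', y ≠ 0) →
      (∀ y ∈ Y', ∀ y' ∈ Y', y / y' ∈ C ∨ y' / y ∈ C) → z ∈ lo V.toSubring C := by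
  classical
  obtain ⟨m, c, s, hcL, hcV, h0, hs, hcs, hlt⟩ :=
    exists_eq (L := (IntermediateField.adjoin k S).toSubfield) V hz
  choose Y hY hYC using fun i => exists_set_adj hT (c := c i) (hcL i) (hcV i)
  refine ⟨(Finset.range (m + 1)).biUnion Y, ?_, ?_⟩
  · intro y hy
    obtain ⟨i, -, hi⟩ := Finset.mem_biUnion.1 hy
    exact hY i y hi
  · intro C hC hint Y' hY' hY0 hcmp
    refine mem_of_root' hC hint hzV c (fun i hi => ?_) h0 hs hcs hlt
    exact hYC i C hC Y' (fun y hy => hY' (Finset.mem_coe.2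
      (Finset.mem_biUnion.2 ⟨i, hi, hy⟩))) hY0 hcmp

end mon

/-- The local ring at the centre is regular if all local rings are regular. -/
theorem regular_lo' {K : Type u} [Field K] (V : ValuationSubring K) {C : Subring K}
    (hC : C ≤ V.toSubring)
    (hreg : ∀ (q : Ideal C) [q.IsPrime], IsRegularLocalRing (Localization.AtPrime q)) :
    IsRegularLocalRing (lo V.toSubring C) := by
  let ι : C →+* V := Subring.inclusion hC
  let P' : Ideal C := (maximalIdeal V).comap ι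
  have hP' : P'.IsPrime := Ideal.comap_isPrime ι (maximalIdeal V)
  have hmem : ∀ b : C, b ∈ P' ↔ V.valuation (b : K) < 1 := by
    intro b
    exact (V.valuation_lt_one_iff (ι b))
  let ψ : C →+* lo V.toSubring C := Subring.inclusion (le_lo _ _)
  let _ : Algebra C (lo V.toSubring C) := ψ.toAlgebra
  have halg : ∀ b : C, ((algebraMap C (lo V.toSubring C) b : lo V.toSubring C) : K) = b :=
    fun b => rfl
  have hunit : ∀ b : C, b ∉ P' ↔ IsUnit (algebraMap C (lo V.toSubring C) b) := by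
    intro b
    rw [hmem, isUnit_lo_iff hC, halg, not_lt]
    constructor
    · intro h1
      have h2 : V.valuation (b : K) = 1 :=
        le_antisymm ((V.valuation_le_one_iff _).2 (hC b.2)) h1
      have h3 : (b : K) ≠ 0 := by
        intro h
        rw [h, map_zero] at h2
        exact zero_ne_one h2
      exact ⟨h3, val_one_inv' h2⟩
    · rintro ⟨h1, h2⟩
      have h3 : ((b : K))⁻¹ ∈ V := h2
      rw [← V.valuation_le_one_iff, map_inv₀] at h3
      exact (inv_le_one₀ (zero_lt_iff.2 ((map_ne_zero _).2 h1))).1 h3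
  have hL : IsLocalization.AtPrime (lo V.toSubring C) P' :=
    { map_units := fun y => (hunit y.1).1 y.2
      surj := by
        rintro ⟨z, a, ha, b, hb, hb0, hbW, rfl⟩
        refine ⟨(⟨a, ha⟩, ⟨⟨b, hb⟩, ?_⟩), ?_⟩
        · change (⟨b, hb⟩ : C) ∉ P'
          rw [hunit, isUnit_lo_iff hC]
          exact ⟨hb0, hbW⟩
        · apply Subtype.ext
          change a * b⁻¹ * b = a
          rw [mul_assoc, inv_mul_cancel₀ hb0, mul_one]
      exists_of_eq := by
        intro a b h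
        refine ⟨1, ?_⟩
        have h1 : a = b := Subtype.ext (congrArg (Subtype.val : lo V.toSubring C → K) h)
        rw [h1] }
  have h1 := hreg P'
  exact IsRegularLocalRing.of_ringEquiv
    (IsLocalization.algEquiv P'.primeCompl (Localization.AtPrime P')
      (lo V.toSubring C)).toRingEquiv

section core

variable {k K : Type} [Field k] [Field K] [Algebra k K]

theorem unif_abs (V : ValuationSubring K) (hk : ∀ c : k, algebraMap k K c ∈ V) (S0 Y00 : Set K)
    (hY00 : ∀ y ∈ Y00, y ≠ 0) (hT : ∀ z ∈ Algebra.adjoin k S0, Dmn V Y00 z)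
    (halg : ∀ x : K, IsAlgebraic (IntermediateField.adjoin k S0) x)
    (hM : ∀ (G : Type) [Finite G] (y : G → K), (∀ b, y b ∈ Y00) →
      ∃ (T I : Type) (_ : Finite T) (_ : Fintype I) (M : LM (⊥ : Subalgebra k K) ⊤ T I)
        (Γ : G → I → ℤ), Fn M y Γ ∧ Frc M)
    (A : Subalgebra k K) (hA : A.FG) (hAV : ∀ a ∈ A, a ∈ V)
    (hfr : ∀ x : K, ∃ a ∈ A, ∃ b ∈ A, b ≠ 0 ∧ x = a * b⁻¹) : Unif V A.toSubring := by
  classical
  have hAft : Algebra.FiniteType k A := (Subalgebra.fg_iff_finiteType A).1 hA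
  have hAn : IsNoetherianRing A := Algebra.FiniteType.isNoetherianRing k A
  have hAn' : IsNoetherianRing A.toSubring := hAn
  obtain ⟨SA, hSA⟩ := hA
  refine unif_of V A.toSubring (fun a ha => hAV a ha) hfr ?_
  intro Z hZ
  have hSAV : ∀ a ∈ SA, a ∈ V := fun a ha => hAV a (by
    rw [← hSA]; exact Algebra.subset_adjoin ha)
  have hZV : ∀ z ∈ Z ∪ SA, z ∈ V := by
    intro z hz
    rcases Finset.mem_union.1 hz with h | h
    · exact hZ z h
    · exact hSAV z h
  choose! Y hY hYC using fun z (hz : z ∈ Z ∪ SA) => exists_set_alg hT (halg z) (hZV z hz)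
  let Y0 : Finset K := (Z ∪ SA).biUnion Y
  have hY0 : ∀ y ∈ Y0, y ∈ Y00 := by
    intro y hy
    obtain ⟨z, hz, hy⟩ := Finset.mem_biUnion.1 hy
    exact hY z hz y hy
  let ε := Y0.equivFin
  let g : Fin Y0.card → K := fun b => (ε.symm b).1
  have hg : ∀ b, g b ∈ Y00 := fun b => hY0 _ (ε.symm b).2
  obtain ⟨T, I, hTf, hIf, M, Γ, hF, hR⟩ := hM (Fin Y0.card) g hg
  obtain ⟨T', I', hT', hI', M', π, Θ, hOv, hC⟩ := wd_ovp k K ⊥ ⊤ T I (Fin Y0.card) M Γ
  have hF' := hF.ov hOv
  have hR' := hR.ov hOv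
  obtain ⟨t, ht⟩ := M'.cv V (by
    intro a ha
    obtain ⟨c, rfl⟩ := Algebra.mem_bot.1 ha
    exact hk c)
  let C : Subring K := (M'.A t).toSubring
  have hCV : C ≤ V.toSubring := fun a ha => ht a ha
  have hsm := M'.sm t
  have hint : ∀ x : K, IsIntegral C x → x ∈ C := by
    intro x hx
    have hn : IsIntegrallyClosed (M'.A t) := wd_norm k (M'.A t)
    have hfrt : IsFractionRing (M'.A t) K := by
      refine IsFractionRing.of_field _ _ fun x => ?_
      obtain ⟨a, ha, b, hb, hb0, h1⟩ := hR' t x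
      refine ⟨⟨a, ha⟩, ⟨b, hb⟩, ?_⟩
      rw [h1]
      exact (div_eq_mul_inv _ _).symm
    have hx' : IsIntegral (M'.A t) x := hx
    obtain ⟨y, hy⟩ := (IsIntegrallyClosed.isIntegral_iff (R := M'.A t) (K := K)).1 hx'
    rw [← hy]
    exact y.2
  have hcmp : ∀ y ∈ (Y0 : Set K), ∀ y' ∈ (Y0 : Set K), y / y' ∈ C ∨ y' / y ∈ C := by
    intro y hy y' hy'
    have e1 : g (ε ⟨y, hy⟩) = y := by simp [g]
    have e2 : g (ε ⟨y', hy'⟩) = y' := by simp [g]
    rcases hC (ε ⟨y, hy⟩) (ε ⟨y', hy'⟩) t with h | h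
    · right
      have h1 := div_mem_of_le M' t g _ hF' (a := ε ⟨y, hy⟩) (b := ε ⟨y', hy'⟩) h
      rw [e1, e2] at h1
      exact h1
    · left
      have h1 := div_mem_of_le M' t g _ hF' (a := ε ⟨y', hy'⟩) (b := ε ⟨y, hy⟩) h
      rw [e1, e2] at h1
      exact h1
  have hmem : ∀ z ∈ Z ∪ SA, z ∈ lo V.toSubring C := by
    intro z hz
    refine hYC z hz C hCV hint (Y0 : Set K) ?_ (fun y hy => hY00 y (hY0 y hy)) hcmp
    intro y hy
    exact Finset.mem_coe.2 (Finset.mem_biUnion.2 ⟨z, hz, hy⟩)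
  have hkC : ∀ c : k, algebraMap k K c ∈ C := fun c => (M'.A t).algebraMap_mem c
  have hft : Algebra.FiniteType k (M'.A t) := inferInstance
  obtain ⟨S, hS⟩ := (Subalgebra.fg_iff_finiteType (M'.A t)).2 hft
  refine ⟨C, S, hCV, ?_, ?_, ?_, fun z hz => hmem z (Finset.mem_union_left _ hz), ?_⟩
  · intro s hs
    change s ∈ M'.A t
    rw [← hS]
    exact Algebra.subset_adjoin hs
  · intro x hx
    have hx' : x ∈ Algebra.adjoin k (S : Set K) := by
      rw [hS]; exact hx
    clear hx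
    induction hx' using Algebra.adjoin_induction with
    | mem x hx => exact Subring.subset_closure (Or.inr hx)
    | algebraMap c => exact Subring.subset_closure (Or.inl (A.algebraMap_mem c))
    | add x y hx hy h1 h2 => exact Subring.add_mem _ h1 h2
    | mul x y hx hy h1 h2 => exact Subring.mul_mem _ h1 h2
  · intro x hx
    have hx' : x ∈ Algebra.adjoin k (SA : Set K) := by
      rw [hSA]; exact hx
    clear hx
    induction hx' using Algebra.adjoin_induction with
    | mem x hx => exact hmem x (Finset.mem_union_right _ hx)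
    | algebraMap c => exact le_lo _ _ (hkC c)
    | add x y hx hy h1 h2 => exact Subring.add_mem _ h1 h2
    | mul x y hx hy h1 h2 => exact Subring.mul_mem _ h1 h2
  · refine regular_lo' V hCV ?_
    intro q hq
    exact Pool.Agent.H920R2.regular_of_smooth (k := k) (A := M'.A t) q

end core

end Pool.Agent.TH214.U
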