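import Pool.Agent.W418.LU2.Base

/-!
# Uniformization of valuations: general criteria
-/

set_option autoImplicit false
set_option linter.unusedVariables false
set_option linter.unusedSectionVars false

universe u

open IsLocalRing Pool.Agent.W418.LU2

namespace Pool.Agent.TH214.U

section abs

variable {F : Type u} [Field F]

/-- Uniformizability of the valuation ring `V` on `Spec A`: the blowings-up of `Spec A` which are
regular at the centre of `V` are cofinal. -/
def Unif (V : ValuationSubring F) (A : Subring F) : Prop :=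
  ∀ I₀ : Ideal A, I₀ ≠ ⊥ → ∃ I₁ : Ideal A, I₁ ≠ ⊥ ∧ ∃ f ∈ I₀ * I₁, f ≠ 0 ∧
    (∀ a ∈ I₀ * I₁, (a : F) / (f : F) ∈ V) ∧
    IsRegularLocalRing (lo V.toSubring (chart A (I₀ * I₁) f))

theorem unif_of (V : ValuationSubring F) (A : Subring F) [IsNoetherianRing A]
    (hAV : A ≤ V.toSubring) (hfr : ∀ x : F, ∃ a ∈ A, ∃ b ∈ A, b ≠ 0 ∧ x = a * b⁻¹)
    (H : ∀ Z : Finset F, (∀ z ∈ Z, z ∈ V) → ∃ (C : Subring F) (S : Finset F),
      C ≤ V.toSubring ∧ (∀ s ∈ S, s ∈ C) ∧ C ≤ Subring.closure ((A : Set F) ∪ S) ∧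
      A ≤ lo V.toSubring C ∧ (∀ z ∈ Z, z ∈ lo V.toSubring C) ∧
      IsRegularLocalRing (lo V.toSubring C)) : Unif V A := by
  classical
  intro I₀ hI₀
  obtain ⟨S₀, hS₀'⟩ := (IsNoetherian.noetherian I₀ : I₀.FG)
  have hS₀ : Ideal.span (S₀ : Set A) = I₀ := hS₀'
  obtain ⟨f₀, hf₀, hf00, hf₀V⟩ := exists_gen V hAV S₀.finite_toSet (by
    rw [hS₀]; exact hI₀)
  have hf0' : (f₀ : F) ≠ 0 := fun h => hf00 (Subtype.ext h)
  have hf₀I : f₀ ∈ I₀ := by
    rw [← hS₀]
    exact Ideal.subset_span hf₀
  rw [hS₀] at hf₀V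
  obtain ⟨C, S, hCV, hSC, hCS, hAC, hZ, hreg⟩ := H
    (S₀.image fun a : A => (a : F) / (f₀ : F)) (by
    intro z hz
    obtain ⟨a, ha, rfl⟩ := Finset.mem_image.1 hz
    exact hf₀V a (by rw [← hS₀]; exact Ideal.subset_span ha))
  have hI₀C : ∀ a ∈ I₀, (a : F) / (f₀ : F) ∈ lo V.toSubring C := by
    intro a ha
    rw [← hS₀] at ha
    induction ha using Submodule.span_induction with
    | mem a ha => exact hZ _ (Finset.mem_image.2 ⟨a, ha, rfl⟩)
    | zero => simp
    | add a b _ _ ha hb =>
      have h1 : ((a + b : A) : F) / (f₀ : F) = (a : F) / (f₀ : F) + (b : F) / (f₀ : F) :=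
        add_div _ _ _
      rw [h1]
      exact Subring.add_mem _ ha hb
    | smul c a _ ha =>
      have h1 : ((c • a : A) : F) / (f₀ : F) = (c : F) * ((a : F) / (f₀ : F)) :=
        mul_div_assoc _ _ _
      rw [h1]
      exact Subring.mul_mem _ (hAC c.2) ha
  choose num hnum den hden hden0 hnd using hfr
  let d : A := ∏ s ∈ S, ⟨den s, hden s⟩
  have hd0 : d ≠ 0 := Finset.prod_ne_zero_iff.2 fun s _ h0 => hden0 s (congrArg Subtype.val h0)
  have hd0' : (d : F) ≠ 0 := fun h => hd0 (Subtype.ext h)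
  have hds : ∀ s ∈ S, ∃ a : A, (a : F) = d * s := by
    intro s hs
    refine ⟨⟨num s, hnum s⟩ * ∏ s' ∈ S.erase s, ⟨den s', hden s'⟩, ?_⟩
    have h1 : d = ⟨den s, hden s⟩ * ∏ s' ∈ S.erase s, ⟨den s', hden s'⟩ :=
      (Finset.mul_prod_erase S _ hs).symm
    rw [h1]
    change num s * _ = den s * _ * s
    have h2 := hnd s
    have h3 : num s = den s * s := by
      rw [← div_eq_mul_inv] at h2
      rw [mul_comm]
      exact ((eq_div_iff (hden0 s)).1 h2).symm
    rw [h3]
    ring
  choose! e he using hds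
  let I₁ : Ideal A := Ideal.span (insert d (e '' (S : Set F)))
  have hdI : d ∈ I₁ := Ideal.subset_span (Set.mem_insert _ _)
  have hI₁ : I₁ ≠ ⊥ := fun h => hd0 (by rw [h, Ideal.mem_bot] at hdI; exact hdI)
  have hSV : ∀ s ∈ S, s ∈ lo V.toSubring C := fun s hs => le_lo _ _ (hSC s hs)
  have hI₁C : ∀ a ∈ I₁, (a : F) / (d : F) ∈ lo V.toSubring C := by
    intro a ha
    induction ha using Submodule.span_induction with
    | mem a ha =>
      rcases ha with rfl | ⟨s, hs, rfl⟩
      · rw [div_self hd0']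
        exact Subring.one_mem _
      · rw [he s hs, mul_div_cancel_left₀ _ hd0']
        exact hSV s hs
    | zero => simp
    | add a b _ _ ha hb =>
      have h1 : ((a + b : A) : F) / (d : F) = (a : F) / (d : F) + (b : F) / (d : F) :=
        add_div _ _ _
      rw [h1]
      exact Subring.add_mem _ ha hb
    | smul c a _ ha =>
      have h1 : ((c • a : A) : F) / (d : F) = (c : F) * ((a : F) / (d : F)) :=
        mul_div_assoc _ _ _
      rw [h1]
      exact Subring.mul_mem _ (hAC c.2) ha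
  have hf0 : f₀ * d ≠ 0 := mul_ne_zero hf00 hd0
  have hmul : ∀ a ∈ I₀ * I₁, (a : F) / ((f₀ * d : A) : F) ∈ lo V.toSubring C := by
    intro a ha
    refine Submodule.mul_induction_on ha ?_ ?_
    · intro b hb c hc
      have h3 : ((b * c : A) : F) / ((f₀ * d : A) : F) = (b : F) / (f₀ : F) *
          ((c : F) / (d : F)) := by
        change (b : F) * (c : F) / ((f₀ : F) * (d : F)) = _
        field_simp
      rw [h3]
      exact Subring.mul_mem _ (hI₀C b hb) (hI₁C c hc)
    · intro b c hb hc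
      have h3 : ((b + c : A) : F) / ((f₀ * d : A) : F) = (b : F) / ((f₀ * d : A) : F) +
          (c : F) / ((f₀ * d : A) : F) := by
        change ((b : F) + (c : F)) / _ = _
        rw [add_div]
      rw [h3]
      exact Subring.add_mem _ hb hc
  have hlV : lo V.toSubring C ≤ V.toSubring := lo_le hCV
  refine ⟨I₁, hI₁, f₀ * d, Ideal.mul_mem_mul hf₀I hdI, hf0, fun a ha => hlV (hmul a ha), ?_⟩
  have h1 : C ≤ chart A (I₀ * I₁) (f₀ * d) := by
    refine hCS.trans ?_
    rw [Subring.closure_le]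
    rintro z (hz | hz)
    · exact Subring.subset_closure (Or.inl hz)
    · refine Subring.subset_closure (Or.inr ⟨f₀ * e z, Ideal.mul_mem_mul hf₀I
        (Ideal.subset_span (Set.mem_insert_of_mem _ ⟨z, hz, rfl⟩)), ?_⟩)
      change z = (f₀ : F) * (e z : F) / ((f₀ : F) * (d : F))
      rw [he z hz]
      field_simp
  have h2 : chart A (I₀ * I₁) (f₀ * d) ≤ lo V.toSubring C := by
    unfold chart
    rw [Subring.closure_le]
    rintro z (hz | ⟨a, ha, rfl⟩)
    · exact hAC hz
    · exact hmul a ha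
  rw [lo_eq hCV h1 h2]
  exact hreg

/-- Roots of polynomials whose coefficients are regular at the centre. -/
theorem mem_of_root {V : ValuationSubring F} {C : Subring F} (hC : C ≤ V.toSubring)
    (hint : ∀ x : F, IsIntegral C x → x ∈ C) {z : F} (hz : z ∈ V) {m : ℕ} (c : ℕ → F)
    (hc : ∀ i ∈ Finset.range (m + 1), c i ∈ C)
    (h0 : ∑ i ∈ Finset.range (m + 1), c i * z ^ i = 0) {s : ℕ} (hs : s ≤ m)
    (hcs : V.valuation (c s) = 1) (hlt : ∀ i, s < i → i ≤ m → V.valuation (c i) < 1) :
    z ∈ lo V.toSubring C := by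
  classical
  by_cases hz0 : z = 0
  · rw [hz0]; exact Subring.zero_mem _
  let β : F := ∑ i ∈ Finset.range (m + 1 - s), c (s + i) * z ^ i
  let α : F := -∑ i ∈ Finset.range s, c i * z⁻¹ ^ (s - 1 - i)
  have hβα : β * z = α := by
    have h1 : ∑ i ∈ Finset.range (m + 1), c i * z ^ i =
        ∑ i ∈ Finset.range s, c i * z ^ i +
          ∑ i ∈ Finset.range (m + 1 - s), c (s + i) * z ^ (s + i) := by
      rw [← Finset.sum_range_add]
      congr 2
      omega
    rw [h1] at h0
    have h2 : ∑ i ∈ Finset.range (m + 1 - s), c (s + i) * z ^ (s + i) = z ^ s * β := by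
      rw [Finset.mul_sum]
      refine Finset.sum_congr rfl fun i _ => ?_
      rw [pow_add]
      ring
    have h3 : z ^ s * α = -(z * ∑ i ∈ Finset.range s, c i * z ^ i) := by
      change z ^ s * -_ = _
      rw [mul_neg, Finset.mul_sum, Finset.mul_sum]
      congr 1
      refine Finset.sum_congr rfl fun i hi => ?_
      have h4 : i < s := Finset.mem_range.1 hi
      have h5 : z ^ s = z ^ (i + 1) * z ^ (s - 1 - i) := by
        rw [← pow_add]
        congr 1
        omega
      rw [h5, inv_pow]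
      have h6 : z ^ (s - 1 - i) ≠ 0 := pow_ne_zero _ hz0
      field_simp
      ring
    have h7 : z ^ s ≠ 0 := pow_ne_zero _ hz0
    apply mul_left_cancel₀ h7
    rw [h3]
    rw [h2] at h0
    have h8 : z ^ s * β = -∑ i ∈ Finset.range s, c i * z ^ i := by
      rw [eq_neg_iff_add_eq_zero, add_comm]
      exact h0
    rw [← mul_assoc, h8]
    ring
  have hW : ∀ W : ValuationSubring F, C ≤ W.toSubring → β ∈ W ∧ α ∈ W := by
    intro W hW
    have hcW : ∀ i ∈ Finset.range (m + 1), c i ∈ W := fun i hi => hW (hc i hi)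
    rcases W.mem_or_inv_mem z with h | h
    · have h1 : β ∈ W := by
        refine sum_mem fun i hi => mul_mem (hcW _ ?_) (pow_mem h _)
        have := Finset.mem_range.1 hi
        exact Finset.mem_range.2 (by omega)
      refine ⟨h1, ?_⟩
      rw [← hβα]
      exact mul_mem h1 h
    · have h1 : α ∈ W := by
        refine neg_mem (sum_mem fun i hi => mul_mem (hcW _ ?_) (pow_mem h _))
        have := Finset.mem_range.1 hi
        exact Finset.mem_range.2 (by omega)
      refine ⟨?_, h1⟩
      have h2 : β = α * z⁻¹ := by rw [← hβα, mul_assoc, mul_inv_cancel₀ hz0, mul_one]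
      rw [h2]
      exact mul_mem h1 h
  have hcl : ∀ x : F, (∀ W : ValuationSubring F, C ≤ W.toSubring → x ∈ W) → x ∈ C := by
    intro x hx
    apply hint
    have h1 := iInf_valuationSubring_superset (K := F) (s := (C : Set F))
    rw [Subring.closure_eq] at h1
    have h2 : x ∈ (integralClosure C F).toSubring := by
      rw [← h1, Subring.mem_iInf]
      intro W
      exact hx W.1 W.2
    exact h2
  have hβC : β ∈ C := hcl β fun W hWC => (hW W hWC).1
  have hαC : α ∈ C := hcl α fun W hWC => (hW W hWC).2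
  have hβ1 : V.valuation β = 1 := by
    have h1 : β = c s + ∑ i ∈ Finset.range (m - s), c (s + (i + 1)) * z ^ (i + 1) := by
      change ∑ i ∈ Finset.range (m + 1 - s), c (s + i) * z ^ i = _
      have h2 : m + 1 - s = (m - s) + 1 := by omega
      rw [h2, Finset.sum_range_succ']
      rw [pow_zero, mul_one, add_zero, add_comm]
    have h3 : V.valuation (∑ i ∈ Finset.range (m - s), c (s + (i + 1)) * z ^ (i + 1)) < 1 := by
      refine Valuation.map_sum_lt V.valuation one_ne_zero fun i hi => ?_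
      rw [map_mul, map_pow]
      have h4 : V.valuation (c (s + (i + 1))) < 1 := hlt _ (by omega) (by
        have := Finset.mem_range.1 hi
        omega)
      have h5 : V.valuation z ^ (i + 1) ≤ 1 := pow_le_one' ((V.valuation_le_one_iff z).2 hz) _
      exact mul_lt_one_of_lt_of_le h4 h5
    rw [h1, Valuation.map_add_eq_of_lt_left V.valuation (by rw [hcs]; exact h3), hcs]
  have hβ0 : β ≠ 0 := by
    intro h
    rw [h, map_zero] at hβ1
    exact zero_ne_one hβ1
  refine ⟨α, hαC, β, hβC, hβ0, ?_, ?_⟩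
  · change β⁻¹ ∈ V
    rw [← V.valuation_le_one_iff, map_inv₀, hβ1, inv_one]
  · rw [← hβα, mul_comm β z, mul_assoc, mul_inv_cancel₀ hβ0, mul_one]

/-- Common denominators. -/
theorem exists_den {V : ValuationSubring F} {C : Subring F} (c : ℕ → F) (s : Finset ℕ)
    (hc : ∀ i ∈ s, c i ∈ lo V.toSubring C) :
    ∃ b ∈ C, b ≠ 0 ∧ b⁻¹ ∈ V ∧ ∀ i ∈ s, b * c i ∈ C := by
  classical
  induction s using Finset.induction_on with
  | empty => exact ⟨1, C.one_mem, one_ne_zero, by rw [inv_one]; exact V.one_mem, by simp⟩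
  | insert a s ha ih =>
    obtain ⟨b, hb, hb0, hbV, h⟩ := ih fun i hi => hc i (Finset.mem_insert_of_mem hi)
    obtain ⟨x, hx, y, hy, hy0, hyV, hxy⟩ := hc a (Finset.mem_insert_self _ _)
    refine ⟨b * y, C.mul_mem hb hy, mul_ne_zero hb0 hy0, ?_, ?_⟩
    · rw [mul_inv]
      exact V.mul_mem _ _ hbV hyV
    · intro i hi
      rcases Finset.mem_insert.1 hi with rfl | hi
      · have h1 : b * y * c i = b * x := by
          rw [hxy]
          field_simp
        rw [h1]
        exact C.mul_mem hb hx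
      · have h1 : b * y * c i = y * (b * c i) := by ring
        rw [h1]
        exact C.mul_mem hy (h i hi)

theorem mem_of_root' {V : ValuationSubring F} {C : Subring F} (hC : C ≤ V.toSubring)
    (hint : ∀ x : F, IsIntegral C x → x ∈ C) {z : F} (hz : z ∈ V) {m : ℕ} (c : ℕ → F)
    (hc : ∀ i ∈ Finset.range (m + 1), c i ∈ lo V.toSubring C)
    (h0 : ∑ i ∈ Finset.range (m + 1), c i * z ^ i = 0) {s : ℕ} (hs : s ≤ m)
    (hcs : V.valuation (c s) = 1) (hlt : ∀ i, s < i → i ≤ m → V.valuation (c i) < 1) :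
    z ∈ lo V.toSubring C := by
  obtain ⟨b, hb, hb0, hbV, h⟩ := exists_den c _ hc
  have hb1 : V.valuation b = 1 := by
    apply le_antisymm
    · exact (V.valuation_le_one_iff b).2 (hC hb)
    · have h1 := (V.valuation_le_one_iff _).2 hbV
      rw [map_inv₀] at h1
      exact (inv_le_one₀ (zero_lt_iff.2 ((map_ne_zero _).2 hb0))).1 h1
  refine mem_of_root hC hint hz (fun i => b * c i) h ?_ hs ?_ ?_
  · have h1 : ∑ i ∈ Finset.range (m + 1), b * c i * z ^ i =
        b * ∑ i ∈ Finset.range (m + 1), c i * z ^ i := by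
      rw [Finset.mul_sum]
      exact Finset.sum_congr rfl fun i _ => mul_assoc _ _ _
    rw [h1, h0, mul_zero]
  · rw [map_mul, hb1, hcs, one_mul]
  · intro i hi him
    rw [map_mul, hb1, one_mul]
    exact hlt i hi him

/-- Normalized equations of algebraic elements. -/
theorem exists_eq {L : Subfield F} (V : ValuationSubring F) {z : F} (hz : IsAlgebraic L z) :
    ∃ (m : ℕ) (c : ℕ → F) (s : ℕ), (∀ i, c i ∈ L) ∧ (∀ i, c i ∈ V) ∧
      ∑ i ∈ Finset.range (m + 1), c i * z ^ i = 0 ∧ s ≤ m ∧ V.valuation (c s) = 1 ∧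
      ∀ i, s < i → i ≤ m → V.valuation (c i) < 1 := by
  classical
  obtain ⟨q, hq, hqz⟩ := hz
  have hsne : q.support.Nonempty := Polynomial.support_nonempty.2 hq
  let v : ℕ → V.ValueGroup := fun i => V.valuation (q.coeff i : F)
  obtain ⟨i₀, hi₀, hmax⟩ := Finset.exists_max_image q.support v hsne
  let S' := q.support.filter fun i => v i = v i₀
  have hS' : S'.Nonempty := ⟨i₀, Finset.mem_filter.2 ⟨hi₀, rfl⟩⟩
  let s := S'.max' hS'
  have hsS : s ∈ S' := Finset.max'_mem _ _
  have hsq : s ∈ q.support := (Finset.mem_filter.1 hsS).1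
  have hvs : v s = v i₀ := (Finset.mem_filter.1 hsS).2
  have hcs0 : (q.coeff s : F) ≠ 0 := fun h =>
    (Polynomial.mem_support_iff.1 hsq) (Subtype.ext h)
  have hvs0 : v s ≠ 0 := (map_ne_zero _).2 hcs0
  have hle : ∀ i, v i ≤ v s := by
    intro i
    by_cases hi : i ∈ q.support
    · rw [hvs]; exact hmax i hi
    · have h1 : (q.coeff i : F) = 0 := by
        rw [Polynomial.notMem_support_iff.1 hi]
        rfl
      change V.valuation (q.coeff i : F) ≤ _
      rw [h1, map_zero]
      exact zero_le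
  have hltv : ∀ i, s < i → v i < v s := by
    intro i hi
    refine lt_of_le_of_ne (hle i) fun h => ?_
    by_cases hiq : i ∈ q.support
    · have h1 : i ∈ S' := Finset.mem_filter.2 ⟨hiq, h.trans hvs⟩
      exact absurd (Finset.le_max' _ _ h1) (not_le.2 hi)
    · have h1 : (q.coeff i : F) = 0 := by
        rw [Polynomial.notMem_support_iff.1 hiq]
        rfl
      have h2 : v i = 0 := by
        change V.valuation (q.coeff i : F) = 0
        rw [h1, map_zero]
      exact hvs0 (h.symm.trans h2)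
  refine ⟨q.natDegree, fun i => (q.coeff i : F) / (q.coeff s : F), s, ?_, ?_, ?_, ?_, ?_, ?_⟩
  · intro i
    exact L.div_mem (q.coeff i).2 (q.coeff s).2
  · intro i
    rw [← V.valuation_le_one_iff, map_div₀]
    exact (div_le_one₀ (zero_lt_iff.2 hvs0)).2 (hle i)
  · rw [Polynomial.aeval_eq_sum_range] at hqz
    have h1 : ∑ i ∈ Finset.range (q.natDegree + 1), (q.coeff i : F) / (q.coeff s : F) * z ^ i =
        (∑ i ∈ Finset.range (q.natDegree + 1), q.coeff i • z ^ i) / (q.coeff s : F) := by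
      rw [Finset.sum_div]
      refine Finset.sum_congr rfl fun i _ => ?_
      change _ = (q.coeff i : F) * z ^ i / _
      ring
    rw [h1, hqz, zero_div]
  · exact Polynomial.le_natDegree_of_mem_supp _ hsq
  · rw [map_div₀, div_self hvs0]
  · intro i hi _
    rw [map_div₀]
    exact (div_lt_one₀ (zero_lt_iff.2 hvs0)).2 (hltv i hi)

end abs

end Pool.Agent.TH214.U
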